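import Pool.Agent.K3h88.VR.Stm2

/-! Project VR, brick AMPC: `k` linear maps pull back an `s`-colouring, each with its own `s - 1`
colours. -/

set_option autoImplicit false

namespace Pool.Agent.K3h19.VR

open Pool.Agent.K3h88.VR

/-- a subspace of dimension at least `r` contains one of dimension `r` -/
theorem exists_sub {m : ℕ} (U : Submodule (ZMod 2) (E m)) (r : ℕ)
    (h : r ≤ Module.finrank (ZMod 2) U) :
    ∃ W : Submodule (ZMod 2) (E m), W ≤ U ∧ Module.finrank (ZMod 2) W = r := by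
  obtain ⟨f, hf⟩ := exists_linearIndependent_of_le_finrank h
  refine ⟨Submodule.span (ZMod 2) (Set.range (fun i => (f i : E m))), ?_, ?_⟩
  · rw [Submodule.span_le]
    rintro _ ⟨i, rfl⟩
    exact (f i).2
  · have hli : LinearIndependent (ZMod 2) (fun i => (f i : E m)) :=
      hf.map' U.subtype U.ker_subtype
    rw [finrank_span_eq_card hli, Fintype.card_fin]

/-- the image of a subspace on which a map is injective has the same dimension -/
theorem finrank_map_inj {n m : ℕ} (V : Submodule (ZMod 2) (E n)) (φ : E n →ₗ[ZMod 2] E m)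
    (h : ∀ v ∈ V, v ≠ 0 → φ v ≠ 0) :
    Module.finrank (ZMod 2) (V.map φ) = Module.finrank (ZMod 2) V := by
  have hinj : Function.Injective (φ.domRestrict V) := by
    rw [← LinearMap.ker_eq_bot, LinearMap.ker_eq_bot']
    intro x hx
    by_contra hne
    exact h x.1 x.2 (fun h0 => hne (Subtype.ext h0)) hx
  have := LinearMap.finrank_range_of_inj hinj
  rwa [LinearMap.range_domRestrict] at this

theorem t_AMPC : S_AMPC := by
  intro n m d ρ k s Φ hs hR hΦ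
  classical
  unfold Ramsey at hR ⊢
  rw [not_forall] at hR ⊢
  obtain ⟨c, hc⟩ := hR
  rw [not_or] at hc
  obtain ⟨hc1, hc2⟩ := hc
  have hs1 : 0 < s - 1 := by omega
  -- the colouring
  have hex : ∀ x : E n, ∃ g : Fin (k * (s - 1) + 1),
      ((g : ℕ) = k * (s - 1) ∧ ∀ i, ¬ (Φ i x ≠ 0 ∧ ((c (Φ i x) : Fin s) : ℕ) + 1 < s)) ∨
      (∃ i : Fin k, (Φ i x ≠ 0 ∧ ((c (Φ i x) : Fin s) : ℕ) + 1 < s) ∧
        (g : ℕ) = (i : ℕ) * (s - 1) + ((c (Φ i x) : Fin s) : ℕ)) := by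
    intro x
    by_cases h : ∃ i : Fin k, (Φ i x ≠ 0 ∧ ((c (Φ i x) : Fin s) : ℕ) + 1 < s)
    · obtain ⟨i, hi⟩ := h
      have hlt : (i : ℕ) * (s - 1) + ((c (Φ i x) : Fin s) : ℕ) < k * (s - 1) + 1 := by
        have h1 : ((i : ℕ) + 1) * (s - 1) ≤ k * (s - 1) := Nat.mul_le_mul_right _ i.2
        rw [Nat.add_mul, Nat.one_mul] at h1
        have h2 := hi.2
        omega
      exact ⟨⟨_, hlt⟩, Or.inr ⟨i, hi, rfl⟩⟩
    · exact ⟨⟨k * (s - 1), by omega⟩, Or.inl ⟨rfl, fun i hi => h ⟨i, hi⟩⟩⟩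
  choose g hg using hex
  refine ⟨g, ?_⟩
  rw [not_or]
  constructor
  · rintro ⟨t, ht, V, hV, hmono⟩
    have ht' : (t : ℕ) < k * (s - 1) := by omega
    -- the index and the colour
    have hiu : ∀ v ∈ V, v ≠ 0 → ∃ i : Fin k, (i : ℕ) = (t : ℕ) / (s - 1) ∧ Φ i v ≠ 0 ∧
        ((c (Φ i v) : Fin s) : ℕ) = (t : ℕ) % (s - 1) := by
      intro v hv hv0
      have hgv : g v = t := hmono v hv hv0
      rcases hg v with ⟨h1, _⟩ | ⟨i, ⟨hi0, hi1⟩, hi2⟩
      · rw [hgv] at h1; omega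
      · rw [hgv] at hi2
        have hlt : ((c (Φ i v) : Fin s) : ℕ) < s - 1 := by omega
        refine ⟨i, ?_, hi0, ?_⟩
        · rw [hi2, Nat.add_comm, Nat.add_mul_div_right _ _ hs1, Nat.div_eq_of_lt hlt,
            Nat.zero_add]
        · rw [hi2, Nat.add_comm, Nat.add_mul_mod_self_right, Nat.mod_eq_of_lt hlt]
    have hik : (t : ℕ) / (s - 1) < k := by
      rw [Nat.div_lt_iff_lt_mul hs1]; exact ht'
    have hus : (t : ℕ) % (s - 1) < s - 1 := Nat.mod_lt _ hs1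
    have hall : ∀ v ∈ V, v ≠ 0 → Φ ⟨(t : ℕ) / (s - 1), hik⟩ v ≠ 0 ∧
        ((c (Φ ⟨(t : ℕ) / (s - 1), hik⟩ v) : Fin s) : ℕ) = (t : ℕ) % (s - 1) := by
      intro v hv hv0
      obtain ⟨i, hi, h0, h1⟩ := hiu v hv hv0
      have : i = ⟨(t : ℕ) / (s - 1), hik⟩ := Fin.ext hi
      subst this
      exact ⟨h0, h1⟩
    apply hc1
    refine ⟨⟨(t : ℕ) % (s - 1), by omega⟩, by simp only []; omega,
      V.map (Φ ⟨(t : ℕ) / (s - 1), hik⟩), ?_, ?_⟩
    · rw [finrank_map_inj V _ (fun v hv hv0 => (hall v hv hv0).1), hV]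
    · rintro w ⟨v, hv, rfl⟩ hw0
      have hv0 : v ≠ 0 := by
        rintro rfl
        exact hw0 (map_zero _)
      exact Fin.ext (hall v hv hv0).2
  · rintro ⟨t, ht, V, hV, hmono⟩
    have ht' : (t : ℕ) = k * (s - 1) := by omega
    obtain ⟨i, hi⟩ := hΦ V hV
    obtain ⟨W, hWV, hW⟩ := exists_sub (V.map (Φ i)) (ρ + 1) hi
    apply hc2
    refine ⟨⟨s - 1, by omega⟩, by simp only []; omega, W, hW, ?_⟩
    intro w hw hw0
    obtain ⟨v, hv, rfl⟩ := hWV hw
    have hv0 : v ≠ 0 := by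
      rintro rfl
      exact hw0 (map_zero _)
    have hgv : g v = t := hmono v hv hv0
    rcases hg v with ⟨_, h2⟩ | ⟨j, ⟨hj0, hj1⟩, hj2⟩
    · have h3 : ¬ (((c (Φ i v) : Fin s) : ℕ) + 1 < s) := fun h => h2 i ⟨hw0, h⟩
      have h4 := (c (Φ i v)).2
      apply Fin.ext
      show ((c (Φ i v) : Fin s) : ℕ) = s - 1
      omega
    · exfalso
      rw [hgv, ht'] at hj2
      have h1 : ((j : ℕ) + 1) * (s - 1) ≤ k * (s - 1) := Nat.mul_le_mul_right _ j.2
      rw [Nat.add_mul, Nat.one_mul] at h1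
      omega

end Pool.Agent.K3h19.VR
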